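import Mathlib

/-!
# Metric spaces with isometric Euclidean squares that are not isometric

`A = ℚ` and `B = √2 ℚ`, both as subspaces of the real line.
-/

set_option autoImplicit false

namespace Pool.Agent.Results.MP_1231ed_gt.RationalLine

/-- the set of the rational numbers, a subset of the real line -/
def A : Set ℝ := {x | ∃ q : ℚ, x = q}

/-- the set of the rational multiples of `√2`, a subset of the real line -/
def B : Set ℝ := {x | ∃ q : ℚ, x = √2 * q}

theorem sqrt_two_sq : √2 * √2 = 2 := Real.mul_self_sqrt (by norm_num)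

theorem sqrt_two_ne : √2 ≠ 0 := by positivity

/-- The map `(x, y) ↦ ((x + y) / √2, (x - y) / √2)` from `B × B` to `A × A`. -/
noncomputable def e : B × B ≃ A × A where
  toFun p := (⟨(p.1.1 + p.2.1) / √2, by
      obtain ⟨⟨x, q, hq⟩, ⟨y, r, hr⟩⟩ := p
      refine ⟨q + r, ?_⟩
      have := sqrt_two_ne
      simp only [hq, hr]
      push_cast
      field_simp⟩,
    ⟨(p.1.1 - p.2.1) / √2, by
      obtain ⟨⟨x, q, hq⟩, ⟨y, r, hr⟩⟩ := p
      refine ⟨q - r, ?_⟩
      have := sqrt_two_ne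
      simp only [hq, hr]
      push_cast
      field_simp⟩)
  invFun p := (⟨(p.1.1 + p.2.1) / √2, by
      obtain ⟨⟨x, q, hq⟩, ⟨y, r, hr⟩⟩ := p
      refine ⟨(q + r) / 2, ?_⟩
      have := sqrt_two_ne
      have h2 := sqrt_two_sq
      simp only [hq, hr]
      push_cast
      rw [div_eq_iff this]
      linear_combination (-(q + r : ℝ) / 2) * h2⟩,
    ⟨(p.1.1 - p.2.1) / √2, by
      obtain ⟨⟨x, q, hq⟩, ⟨y, r, hr⟩⟩ := p
      refine ⟨(q - r) / 2, ?_⟩
      have := sqrt_two_ne
      have h2 := sqrt_two_sq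
      simp only [hq, hr]
      push_cast
      rw [div_eq_iff this]
      linear_combination (-(q - r : ℝ) / 2) * h2⟩)
  left_inv p := by
    have := sqrt_two_ne
    have h2 := sqrt_two_sq
    refine Prod.ext (Subtype.ext ?_) (Subtype.ext ?_)
    · change ((p.1.1 + p.2.1) / √2 + (p.1.1 - p.2.1) / √2) / √2 = p.1.1
      rw [← add_div, div_div, h2]; ring
    · change ((p.1.1 + p.2.1) / √2 - (p.1.1 - p.2.1) / √2) / √2 = p.2.1
      rw [← sub_div, div_div, h2]; ring
  right_inv p := by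
    have := sqrt_two_ne
    have h2 := sqrt_two_sq
    refine Prod.ext (Subtype.ext ?_) (Subtype.ext ?_)
    · change ((p.1.1 + p.2.1) / √2 + (p.1.1 - p.2.1) / √2) / √2 = p.1.1
      rw [← add_div, div_div, h2]; ring
    · change ((p.1.1 + p.2.1) / √2 - (p.1.1 - p.2.1) / √2) / √2 = p.2.1
      rw [← sub_div, div_div, h2]; ring

theorem key (a b c d : ℝ) : dist ((a + b) / √2) ((c + d) / √2) ^ 2 +
    dist ((a - b) / √2) ((c - d) / √2) ^ 2 = dist a c ^ 2 + dist b d ^ 2 := by
  have h2 : √2 ^ 2 = 2 := Real.sq_sqrt (by norm_num)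
  simp only [Real.dist_eq, sq_abs]
  rw [← sub_div, ← sub_div, div_pow, div_pow, h2]
  ring

theorem dist_eq {X : Type} [MetricSpace X] (p q : WithLp 2 (X × X)) :
    dist p q = √(dist p.fst q.fst ^ 2 + dist p.snd q.snd ^ 2) := by
  rw [WithLp.prod_dist_eq_add (by norm_num), Real.sqrt_eq_rpow]
  norm_num

/-- There are metric spaces `A`, `B` (here two subsets of the real line) which are not isometric,
while their squares with the Euclidean product metric are isometric. -/
theorem result : ∃ A B : Set ℝ, Nonempty (WithLp 2 (A × A) ≃ᵢ WithLp 2 (B × B)) ∧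
    IsEmpty (A ≃ᵢ B) := by
  refine ⟨A, B, ⟨IsometryEquiv.symm ?_⟩, ⟨fun f => ?_⟩⟩
  · refine ⟨(WithLp.equiv 2 (B × B)).trans (e.trans (WithLp.equiv 2 (A × A)).symm), ?_⟩
    refine Isometry.of_dist_eq fun p q => ?_
    rw [dist_eq p q]
    refine (dist_eq _ _).trans ?_
    congr 1
    exact key p.fst.1 p.snd.1 q.fst.1 q.snd.1
  · have h1 : dist (f.symm ⟨√2, 1, by simp⟩) (f.symm ⟨0, 0, by simp⟩) = √2 := by
      rw [f.symm.dist_eq, Subtype.dist_eq, Real.dist_eq, sub_zero, abs_of_nonneg (by positivity)]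
    obtain ⟨q, hq⟩ := (f.symm ⟨0, 0, by simp⟩).2
    obtain ⟨r, hr⟩ := (f.symm ⟨√2, 1, by simp⟩).2
    rw [Subtype.dist_eq, Real.dist_eq, hq, hr] at h1
    refine irrational_sqrt_two ⟨|r - q|, ?_⟩
    rw [← h1]
    push_cast
    rfl

end Pool.Agent.Results.MP_1231ed_gt.RationalLine
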